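import Pool.Agent.Y6.N.Stm
import Pool.Agent.Y691.ND.FLD

/-!
# Project NSK, job FLDB: the Dirichlet form in terms of the coefficients
-/

open Set Filter Topology MeasureTheory

set_option autoImplicit false

namespace Pool.Agent.Y153.NSK
open Pool.Agent.Y5 Pool.Agent.Y5.D Pool.Agent.Y691.ND Pool.Agent.Y691.ND.F Pool.Agent.Y6.N

theorem t_FLDB : Pool.Agent.Y6.N.S_FLDB := by
  intro V W hV rV hW rW
  unfold dirb
  rw [fieldOf_eq, fieldOf_eq]
  have h1 : ∀ y : E3, ∑ i : Fin 3, inner ℝ
      (fderiv ℝ (ser Real.sin V) y (EuclideanSpace.single i 1))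
      (fderiv ℝ (ser Real.sin W) y (EuclideanSpace.single i 1))
      = ∑ i : Fin 3, inner ℝ (ser Real.cos (dfam i V) y) (ser Real.cos (dfam i W) y) := by
    intro y
    refine Finset.sum_congr rfl (fun i _ => ?_)
    rw [fld_d i rV, fld_d i rW]
  rw [integral_congr_ae (Eventually.of_forall h1), integral_finsetSum]
  · have h2 : ∀ i : Fin 3,
        ∫ y in cube, inner ℝ (ser Real.cos (dfam i V) y) (ser Real.cos (dfam i W) y) =
        ∑' k, (2 * Real.pi) ^ 2 * ((k i : ℝ) ^ 2 * inner ℝ (V k) (W k)) := by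
      intro i
      rw [int_pair Real.continuous_cos Real.abs_cos_le_one (dfam_sum i rV)
        (ser_cont Real.continuous_cos Real.abs_cos_le_one (dfam_sum i rW))
        (ser_bdd Real.abs_cos_le_one (dfam_sum i rW))]
      refine tsum_congr (fun k => ?_)
      rw [coef_cos (dfam_sum i rW) (dfam_even i hW)]
      unfold dfam
      rw [real_inner_smul_left, real_inner_smul_right]
      ring
    simp_rw [h2]
    have hs : ∀ i : Fin 3, Summable
        (fun k : Z3 => (2 * Real.pi) ^ 2 * ((k i : ℝ) ^ 2 * inner ℝ (V k) (W k))) := by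
      intro i
      refine Summable.mul_left _ ?_
      refine Summable.of_norm_bounded ((sum2 rV).add (sum2 rW)) (fun k => ?_)
      have h3 := coord_le k i
      have h4 := abs_real_inner_le_norm (V k) (W k)
      have h5 : |(k i : ℝ)| ^ 2 ≤ ‖vec k‖ ^ 2 := by gcongr
      have h6 : ‖V k‖ * ‖W k‖ ≤ ‖V k‖ ^ 2 + ‖W k‖ ^ 2 := by
        nlinarith [sq_nonneg (‖V k‖ - ‖W k‖), sq_nonneg ‖V k‖, sq_nonneg ‖W k‖]
      rw [Real.norm_eq_abs, abs_mul, abs_pow, ← mul_add]
      exact mul_le_mul h5 (h4.trans h6) (abs_nonneg _) (by positivity)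
    rw [← Summable.tsum_finsetSum (fun i _ => hs i), ← tsum_mul_left]
    refine tsum_congr (fun k => ?_)
    rw [← Finset.mul_sum, ← Finset.sum_mul]
    congr 2
    rw [EuclideanSpace.norm_sq_eq]
    refine Finset.sum_congr rfl (fun i _ => ?_)
    rw [vec_apply, Real.norm_eq_abs, sq_abs]
  · intro i _
    have hc := ser_cont Real.continuous_cos Real.abs_cos_le_one (dfam_sum i rV)
    have hb := ser_bdd Real.abs_cos_le_one (dfam_sum i rV)
    have hc' := ser_cont Real.continuous_cos Real.abs_cos_le_one (dfam_sum i rW)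
    have hb' := ser_bdd Real.abs_cos_le_one (dfam_sum i rW)
    refine int_of_cont (hc.inner hc') ⟨(∑' k, ‖dfam i V k‖) * (∑' k, ‖dfam i W k‖), fun y => ?_⟩
    refine (norm_inner_le_norm _ _).trans ?_
    exact mul_le_mul (hb y) (hb' y) (norm_nonneg _) ((norm_nonneg _).trans (hb y))

end Pool.Agent.Y153.NSK
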